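import Mathlib
import Pool.Agent.helper56.CDC.ThmA
import Pool.Agent.helper11.EF.Main
import Pool.Agent.helper83.CDCC.Conn

/-!
# The cycle double cover conjecture

A finite multigraph is given by two maps s, t : E → V (the edge e joins s e and t e; loops and parallel edges
are allowed).
-/

namespace Pool.Agent.Results.MP_0c3aa4_co.CycleDoubleCover

open CDC

/-- C is a family of eight even edge sets, indexed by the vectors of F_2^3, such that every edge lies in exactly
two of them, and L is a list (multiset) of cycles, each contained in a member of the family, such that every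
edge lies in exactly two members of L; if the graph is cubic then L has no repeated member. -/
structure DoubleCover {V E : Type*} [DecidableEq V] [Fintype E] [DecidableEq E]
    (s t : E → V) (C : (Fin 3 → ZMod 2) → Finset E) (L : Multiset (Finset E)) : Prop where
  even : ∀ a v, Even (edeg s t (C a) v)
  twice : ∀ e, (Finset.univ.filter (fun a => e ∈ C a)).card = 2
  cycle : ∀ D ∈ L, IsCycle s t D ∧ ∃ a, D ⊆ C a
  cover : ∀ e, L.countP (fun D => e ∈ D) = 2
  nodup : (∀ v, edeg s t Finset.univ v = 3) → L.Nodup

theorem doubleCover_of_flow {V E : Type*} [Fintype V] [DecidableEq V] [Fintype E] [DecidableEq E]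
    (s t : E → V) (f : E → Fin 3 → ZMod 2) (hf : ∀ v, (∑ e, ((if s e = v then f e else 0)
      + (if t e = v then f e else 0))) = 0) (h0 : ∀ e, f e ≠ 0) :
    ∃ C L, DoubleCover s t C L ∧ ∀ e a, e ∈ C a → e ∈ C (a + f e) := by
  obtain ⟨C, hC, h2, h3⟩ := theoremA s t f hf h0
  obtain ⟨L, hL, hL2⟩ := cycles_of_even_cover s t C hC 2 h2
  exact ⟨C, L, ⟨fun a v => hC a v, h2, hL, hL2,
    fun hc => nodup_of_cubic s t hc L (fun D hD => (hL D hD).1) hL2⟩, h3⟩

/-- **The cycle double cover conjecture.**
(1) The problem for S empty, in the words of the file: every 2-connected cubic multigraph has a set F of cycles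
such that every edge lies in exactly two members of F.
(2) Every finite multigraph without bridges (loops and parallel edges allowed) has eight even edge sets such
that every edge lies in exactly two of them, and a list of cycles such that every edge lies in exactly two
members of the list.
(3) Such a cover exists above every nowhere-zero flow f with values in F_2^3: the two even sets containing the
edge e have indices a and a + f e. -/
theorem result {V E : Type*} [Fintype V] [DecidableEq V] [Fintype E] [DecidableEq E] (s t : E → V) :
    (TwoConn s t → (∀ v, edeg s t Finset.univ v = 3) →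
      ∃ F : Finset (Finset E), (∀ D ∈ F, IsCycle s t D) ∧
        ∀ e, (F.filter (fun D => e ∈ D)).card = 2) ∧
    ((∀ e, ¬ IsBridge s t e) → ∃ C L, DoubleCover s t C L) ∧
    (∀ f : E → Fin 3 → ZMod 2,
      (∀ v, (∑ e, ((if s e = v then f e else 0) + (if t e = v then f e else 0))) = 0) →
      (∀ e, f e ≠ 0) →
      ∃ C L, DoubleCover s t C L ∧ ∀ e a, e ∈ C a → e ∈ C (a + f e)) := by
  have key : Bridgeless s t → ∃ C L, DoubleCover s t C L := by
    intro hb
    obtain ⟨f, hf, h0⟩ := eight_flow hb
    obtain ⟨C, L, h, _⟩ := doubleCover_of_flow s t f hf h0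
    exact ⟨C, L, h⟩
  refine ⟨?_, fun h => key (bridgeless_of_no_bridge s t h), doubleCover_of_flow s t⟩
  intro h2 h3
  obtain ⟨C, L, h⟩ := key h2.bridgeless
  exact cdc_cubic_of_list s t h3 L (fun D hD => (h.cycle D hD).1) h.cover

end Pool.Agent.Results.MP_0c3aa4_co.CycleDoubleCover
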